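import Pool.Agent.H.MP_fa373d_co.B

/-! Binary focal-free codes: the bound `(r-1) 2^⌈(r-2)n/(r-1)⌉` is not tight up to any factor
depending only on `r`. -/

namespace Pool.Agent.Results.MP_fa373d_co.NotTight

open Finset Filter Topology Pool.Agent.H.MP_fa373d_co.A Pool.Agent.H.MP_fa373d_co.B

/-- `x` together with the `r - 1` vectors of `Y` is a focal family of size `r` with focus `x`. -/
def IsFocal (r : ℕ) {n : ℕ} (x : Fin n → Bool) (Y : Finset (Fin n → Bool)) : Prop :=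
  Y.card = r - 1 ∧ x ∉ Y ∧ ∀ i, r - 2 ≤ (Y.filter fun y => y i = x i).card

/-- No `r` members of `F` form a focal family. -/
def FocalFree (r : ℕ) {n : ℕ} (F : Finset (Fin n → Bool)) : Prop :=
  ∀ x ∈ F, ∀ Y ⊆ F, ¬ IsFocal r x Y

open Classical in
/-- Largest size of a focal-free subset of the cube. -/
noncomputable def g (r n : ℕ) : ℕ :=
  ((univ : Finset (Finset (Fin n → Bool))).filter (FocalFree r)).sup card

/-- The bound proved by induction. -/
def H (q C : ℕ) : Prop :=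
  ∀ (n : ℕ) (R0 : Finset (Fin n)) (F : Finset (Fin n → Bool)), FF q F →
    (∀ x ∈ F, ∀ y ∈ F, ∀ i, i ∉ R0 → y i = x i) → ∀ k, C * 2 ^ (2 * q * k) ≤ R0.card →
    F.card * 2 ^ k ≤ C * 2 ^ (R0.card - R0.card / q)

theorem base : H 2 (2 ^ 19) := by
  intro n R0 F hF hout k hk
  set m := R0.card with hm
  have h1 : k < 2 ^ (2 * 2 * k) := lt_of_lt_of_le Nat.lt_two_pow_self
    (Nat.pow_le_pow_right (by norm_num) (by omega))
  have h2 : 3 * (k + 3) ≤ m / 2 := by omega
  obtain ⟨U, hU, hUc⟩ := exists_subset_card_eq (s := R0) (n := m / 2 - 3 * (k + 3)) (by omega)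
  have hR : (R0 \ U).card = (m - m / 2) + 3 * (k + 3) := by
    rw [card_sdiff_of_subset hU, hUc]; omega
  have ha : (2 ^ (k + 3)) ^ 2 = 64 * 2 ^ (2 * k) := by ring
  have hb : ((2 ^ (k + 3)) ^ 2) ^ 2 = 4096 * 2 ^ (2 * 2 * k) := by ring
  have h0 : 0 < 2 ^ (2 * k) := by positivity
  have hc := core F hF U (R0 \ U) ((2 ^ (k + 3)) ^ 2) (by omega) (by rw [hb, hR]; omega)
    (fun x hx y hy i h1 h2 => hout x hx y hy i (fun h => h2 (mem_sdiff.2 ⟨h, h1⟩)))
  rw [hR, hUc] at hc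
  push_cast at hc
  set a : ℝ := 2 ^ (k + 3) with hadef
  have ha0 : 0 < a := by positivity
  have e1 : (2 : ℝ) ^ (m / 2 - 3 * (k + 3)) * a ^ 3 = 2 ^ (m / 2) := by
    rw [hadef, ← pow_mul, ← pow_add]; congr 1; omega
  have e2 : (2 : ℝ) ^ (m - m / 2 + 3 * (k + 3)) = 2 ^ (m - m / 2) * a ^ 3 := by
    rw [hadef, ← pow_mul, ← pow_add]; congr 1; omega
  have e3 : (2 : ℝ) ^ (m / 2) ≤ 2 ^ (m - m / 2) := pow_le_pow_right₀ (by norm_num) (by omega)
  have e4 : a = 8 * 2 ^ k := by rw [hadef]; ring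
  rw [e2] at hc
  have e5 : a ^ 3 * (2 * a * F.card) ≤ a ^ 3 * (2 ^ (m - m / 2) + 32 * 2 ^ (m / 2)) := by
    rw [← e1]; nlinarith
  have e6 := le_of_mul_le_mul_left e5 (by positivity)
  have e7 : (F.card : ℝ) * 2 ^ k ≤ 2 ^ 19 * 2 ^ (m - m / 2) := by
    have : (0 : ℝ) < 2 ^ (m - m / 2) := by positivity
    rw [e4] at e6; nlinarith
  exact_mod_cast e7

theorem step (q C : ℕ) (hq : 2 ≤ q) (h : H q C) : H (q + 1) (2 * C * 2 ^ (2 * q) + 6) := by
  classical
  intro n R0 F hF hout k hk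
  set m := R0.card with hm
  have h1 : k < 2 ^ (2 * (q + 1) * k) := lt_of_lt_of_le Nat.lt_two_pow_self
    (Nat.pow_le_pow_right (by norm_num) (by nlinarith))
  have h2 : 6 * k ≤ m := by nlinarith [Nat.zero_le (2 * C * 2 ^ (2 * q) * 2 ^ (2 * (q + 1) * k))]
  have h3 : m / (q + 1) ≤ m / 3 := Nat.div_le_div_left (by omega) (by norm_num)
  obtain ⟨B, hB, hBc⟩ := exists_subset_card_eq (s := R0) (n := m / (q + 1) + k) (by omega)
  have hR : (R0 \ B).card = m - (m / (q + 1) + k) := by rw [card_sdiff_of_subset hB, hBc]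
  set foc : (Fin n → Bool) → Prop := fun x => ∃ Y ⊆ F, Y.card = q ∧ x ∉ Y ∧
    (∀ y ∈ Y, msk B y = msk B x) ∧ ∀ y ∈ Y, ∀ z ∈ Y, y ≠ z → ∀ i, y i = x i ∨ z i = x i with hfoc
  have c1 : (F.filter foc).card ≤ 2 ^ (R0 \ B).card := by
    refine le_trans (le_of_eq (card_image_of_injOn ?_).symm) (card_msk (R0 \ B) _)
    intro x hx y hy hxy
    by_contra hne
    obtain ⟨hxF, Y, hYF, hYc, hxY, hYm, hYd⟩ := mem_filter.1 (mem_coe.1 hx)
    have hyF := (mem_filter.1 (mem_coe.1 hy)).1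
    have hyx : ∀ i, i ∉ B → y i = x i := by
      intro i hi
      by_cases h0 : i ∈ R0
      · exact (msk_eq hxy (mem_sdiff.2 ⟨h0, hi⟩)).symm
      · exact hout x hxF y hyF i h0
    have hor : ∀ z ∈ Y, ∀ i, y i = x i ∨ z i = x i := by
      intro z hz i
      by_cases hi : i ∈ B
      · exact Or.inr (msk_eq (hYm z hz) hi)
      · exact Or.inl (hyx i hi)
    have hyY : y ∉ Y := fun hy' => hne (funext fun i => ((hor y hy' i).elim id id).symm)
    refine hF ⟨x, hxF, insert y Y, insert_subset hyF hYF, by rw [card_insert_of_notMem hyY, hYc],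
      by simp only [mem_insert, not_or]; exact ⟨hne, hxY⟩, ?_⟩
    intro u hu v hv huv i
    rcases mem_insert.1 hu with rfl | hu' <;> rcases mem_insert.1 hv with rfl | hv'
    · exact absurd rfl huv
    · exact hor v hv' i
    · exact (hor u hu' i).symm
    · exact hYd u hu' v hv' huv i
  set Rest := F.filter fun x => ¬ foc x with hRest
  have c2 : ∀ u ∈ Rest.image (msk B), (Rest.filter fun x => msk B x = u).card * 2 ^ (k + (k / q + 1))
      ≤ C * 2 ^ ((R0 \ B).card - (R0 \ B).card / q) := by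
    intro u _
    have hKF : (Rest.filter fun x => msk B x = u) ⊆ F :=
      (filter_subset _ _).trans (filter_subset _ _)
    refine h n _ _ ?_ ?_ _ ?_
    · rintro ⟨x, hx, Y, hY, hYc, hxY, hYd⟩
      exact (mem_filter.1 (mem_filter.1 hx).1).2 ⟨Y, hY.trans hKF, hYc, hxY,
        fun y hy => (mem_filter.1 (hY hy)).2.trans (mem_filter.1 hx).2.symm, hYd⟩
    · intro x hx y hy i hi
      by_cases hiB : i ∈ B
      · exact msk_eq ((mem_filter.1 hy).2.trans (mem_filter.1 hx).2.symm) hiB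
      · exact hout x (hKF hx) y (hKF hy) i fun h0 => hi (mem_sdiff.2 ⟨h0, hiB⟩)
    · have a1 : 2 * q * (k + (k / q + 1)) ≤ 2 * q + 2 * (q + 1) * k := by
        have := Nat.mul_div_le k q
        nlinarith
      have a2 : C * 2 ^ (2 * q * (k + (k / q + 1))) ≤ C * (2 ^ (2 * q) * 2 ^ (2 * (q + 1) * k)) := by
        rw [← pow_add]
        exact Nat.mul_le_mul_left _ (Nat.pow_le_pow_right (by norm_num) a1)
      have a3 : 2 * (C * (2 ^ (2 * q) * 2 ^ (2 * (q + 1) * k))) ≤ m := by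
        nlinarith [Nat.zero_le (2 ^ (2 * (q + 1) * k))]
      rw [hR]; omega
  have c3 : Rest.card * 2 ^ (k + (k / q + 1)) ≤
      2 ^ B.card * (C * 2 ^ ((R0 \ B).card - (R0 \ B).card / q)) := by
    rw [card_eq_sum_card_image (msk B) Rest, sum_mul]
    refine (sum_le_sum c2).trans ?_
    rw [sum_const, smul_eq_mul]
    exact Nat.mul_le_mul_right _ (card_msk B Rest)
  have c4 : B.card + ((R0 \ B).card - (R0 \ B).card / q) ≤ (m - m / (q + 1)) + (k / q + 1) := by
    have a1 : ((R0 \ B).card + k) / q ≤ (R0 \ B).card / q + k / q + 1 := by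
      rw [Nat.add_div (by omega)]; split_ifs <;> omega
    have a2 : m / (q + 1) ≤ ((R0 \ B).card + k) / q := by
      rw [Nat.le_div_iff_mul_le (by omega), hR]
      have := Nat.mul_div_le m (q + 1)
      have e : (q + 1) * (m / (q + 1)) = m / (q + 1) * q + m / (q + 1) := by ring
      omega
    have a3 := Nat.div_le_self (R0 \ B).card q
    have a4 : B.card + (R0 \ B).card = m := by rw [hR, hBc]; omega
    have a5 := Nat.div_le_self m (q + 1)
    generalize m / (q + 1) = u at *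
    generalize ((R0 \ B).card + k) / q = v at *
    generalize (R0 \ B).card / q = w at *
    generalize k / q = z at *
    omega
  have c5 : Rest.card * 2 ^ k ≤ C * 2 ^ (m - m / (q + 1)) := by
    refine Nat.le_of_mul_le_mul_right (c := 2 ^ (k / q + 1)) ?_ (by positivity)
    rw [mul_assoc, ← pow_add]
    refine c3.trans ?_
    rw [mul_left_comm, ← pow_add, mul_assoc, ← pow_add]
    exact Nat.mul_le_mul_left _ (Nat.pow_le_pow_right (by norm_num) c4)
  have c6 : (F.filter foc).card * 2 ^ k ≤ 2 ^ (m - m / (q + 1)) := by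
    refine (Nat.mul_le_mul_right _ c1).trans (le_of_eq ?_)
    rw [← pow_add, hR]; congr 1; omega
  have c7 : (F.filter foc).card + Rest.card = F.card := card_filter_add_card_filter_not _
  have c8 : 1 ≤ 2 ^ (2 * q) := Nat.one_le_two_pow
  rw [← c7, add_mul]
  refine (Nat.add_le_add c6 c5).trans ?_
  rw [show 2 ^ (m - m / (q + 1)) + C * 2 ^ (m - m / (q + 1)) = (1 + C) * 2 ^ (m - m / (q + 1)) by ring]
  exact Nat.mul_le_mul_right _ (by nlinarith)

theorem all (q : ℕ) (hq : 2 ≤ q) : ∃ C, 1 ≤ C ∧ H q C := by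
  induction q, hq using Nat.le_induction with
  | base => exact ⟨_, by norm_num, base⟩
  | succ q hq ih => obtain ⟨C, -, h⟩ := ih; exact ⟨_, by omega, step q C hq h⟩

theorem ff_of (q n : ℕ) (F : Finset (Fin n → Bool)) (h : FocalFree (q + 1) F) : FF q F := by
  rintro ⟨x, hx, Y, hY, hYc, hxY, hd⟩
  refine h x hx Y hY ⟨by simpa using hYc, hxY, fun i => ?_⟩
  have h1 : (Y.filter fun y => ¬ y i = x i).card ≤ 1 := by
    rw [card_le_one]
    intro y hy z hz
    by_contra hne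
    rcases hd y (mem_filter.1 hy).1 z (mem_filter.1 hz).1 hne i with e | e
    · exact (mem_filter.1 hy).2 e
    · exact (mem_filter.1 hz).2 e
  have h2 := card_filter_add_card_filter_not (s := Y) fun y => y i = x i
  omega

theorem bound (q : ℕ) (hq : 2 ≤ q) : ∃ C : ℝ, 0 < C ∧ ∀ n : ℕ, 1 ≤ n →
    (g (q + 1) n : ℝ) * (n : ℝ) ^ (1 / (2 * (q : ℝ))) ≤ C * (2 : ℝ) ^ (((q : ℝ) - 1) / q * n) := by
  classical
  obtain ⟨C, hC, h⟩ := all q hq
  have hq' : (2 : ℝ) ≤ q := by exact_mod_cast hq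
  have hC' : (1 : ℝ) ≤ C := by exact_mod_cast hC
  refine ⟨2 ^ C * C + 4 * C ^ 2, by positivity, fun n hn => ?_⟩
  have hn' : (1 : ℝ) ≤ n := by exact_mod_cast hn
  have hex : 1 / (2 * (q : ℝ)) ≤ 1 := by rw [div_le_one (by positivity)]; linarith
  have hP : (1 : ℝ) ≤ (2 : ℝ) ^ (((q : ℝ) - 1) / q * n) :=
    Real.one_le_rpow (by norm_num) (mul_nonneg (div_nonneg (by linarith) (by linarith)) (by linarith))
  rcases lt_or_ge n C with hlt | hge
  · have a1 : g (q + 1) n ≤ 2 ^ C := by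
      refine Finset.sup_le fun F _ => (card_le_univ F).trans ?_
      rw [Fintype.card_fun, Fintype.card_bool, Fintype.card_fin]
      exact Nat.pow_le_pow_right (by norm_num) hlt.le
    have a2 : (g (q + 1) n : ℝ) ≤ 2 ^ C := by exact_mod_cast a1
    have a3 : (n : ℝ) ^ (1 / (2 * (q : ℝ))) ≤ C := by
      refine (Real.rpow_le_rpow_of_exponent_le hn' hex).trans ?_
      rw [Real.rpow_one]; exact_mod_cast hlt.le
    calc (g (q + 1) n : ℝ) * (n : ℝ) ^ (1 / (2 * (q : ℝ))) ≤ 2 ^ C * C := by gcongr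
      _ ≤ (2 ^ C * C + 4 * C ^ 2) * 1 := by nlinarith
      _ ≤ _ := by gcongr
  · set k := Nat.log (2 ^ (2 * q)) (n / C) with hk
    have hb : 1 < 2 ^ (2 * q) := Nat.one_lt_two_pow (by omega)
    have hnC : n / C ≠ 0 := (Nat.div_pos hge hC).ne'
    have a1 : C * 2 ^ (2 * q * k) ≤ n := by
      rw [pow_mul]
      exact (Nat.mul_le_mul_left _ (Nat.pow_log_le_self _ hnC)).trans (Nat.mul_div_le n C)
    have a2 : n ≤ C * (2 ^ (k + 1)) ^ (2 * q) := by
      have := Nat.lt_pow_succ_log_self hb (n / C)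
      rw [Nat.div_lt_iff_lt_mul hC, ← hk, ← pow_mul, mul_comm (2 * q), pow_mul] at this
      rw [mul_comm]; exact this.le
    have a3 : g (q + 1) n * 2 ^ k ≤ C * 2 ^ (n - n / q) := by
      have hne : ((univ : Finset (Finset (Fin n → Bool))).filter (FocalFree (q + 1))).Nonempty :=
        ⟨∅, mem_filter.2 ⟨mem_univ _, fun x hx => absurd hx (notMem_empty x)⟩⟩
      obtain ⟨F, hF, e⟩ := exists_mem_eq_sup _ hne card
      have := h n univ F (ff_of q n F (mem_filter.1 hF).2) (fun _ _ _ _ i hi => absurd (mem_univ i) hi)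
        k (by simpa using a1)
      rw [g]
      simp only [card_univ, Fintype.card_fin] at this
      convert this using 2
    have a4 : (g (q + 1) n : ℝ) * 2 ^ k ≤ C * 2 ^ (n - n / q) := by exact_mod_cast a3
    have a5 : (n : ℝ) ^ (1 / (2 * (q : ℝ))) ≤ C * 2 ^ (k + 1) := by
      have b1 : (n : ℝ) ≤ (C * 2 ^ (k + 1)) ^ (2 * q) := by
        have b0 : (n : ℝ) ≤ C * (2 ^ (k + 1)) ^ (2 * q) := by exact_mod_cast a2
        rw [mul_pow]
        exact b0.trans (mul_le_mul_of_nonneg_right (le_self_pow₀ hC' (by omega)) (by positivity))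
      refine (Real.rpow_le_rpow (by positivity) b1 (by positivity)).trans (le_of_eq ?_)
      rw [← Real.rpow_natCast, ← Real.rpow_mul (by positivity)]
      push_cast
      rw [mul_one_div_cancel (by positivity), Real.rpow_one]
    have a6 : (2 : ℝ) ^ (n - n / q) ≤ 2 * (2 : ℝ) ^ (((q : ℝ) - 1) / q * n) := by
      rw [← Real.rpow_natCast, mul_comm (2 : ℝ), ← Real.rpow_add_one (by norm_num)]
      refine Real.rpow_le_rpow_of_exponent_le (by norm_num) ?_
      rw [Nat.cast_sub (Nat.div_le_self n q)]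
      have b1 : (n : ℝ) < q * ((n / q : ℕ) + 1) := by
        exact_mod_cast Nat.lt_mul_div_succ n (show 0 < q by omega)
      have b2 : (n : ℝ) / q < (n / q : ℕ) + 1 := by rw [div_lt_iff₀ (by linarith)]; linarith
      have b3 : ((q : ℝ) - 1) / q * n = n - n / q := by field_simp
      linarith
    calc (g (q + 1) n : ℝ) * (n : ℝ) ^ (1 / (2 * (q : ℝ))) ≤ g (q + 1) n * (C * 2 ^ (k + 1)) := by
          gcongr
      _ = 2 * C * (g (q + 1) n * 2 ^ k) := by ring
      _ ≤ 2 * C * (C * (2 * (2 : ℝ) ^ (((q : ℝ) - 1) / q * n))) := by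
          exact mul_le_mul_of_nonneg_left (a4.trans (by gcongr)) (by positivity)
      _ = 4 * C ^ 2 * (2 : ℝ) ^ (((q : ℝ) - 1) / q * n) := by ring
      _ ≤ _ := by gcongr; exact le_add_of_nonneg_left (by positivity)

theorem result (r : ℕ) (hr : 3 ≤ r) :
    (∃ C : ℝ, 0 < C ∧ ∀ n : ℕ, 1 ≤ n → (g r n : ℝ) ≤
      C * (2 : ℝ) ^ (((r : ℝ) - 2) / ((r : ℝ) - 1) * n) / (n : ℝ) ^ (1 / (2 * ((r : ℝ) - 1)))) ∧
    Tendsto (fun n : ℕ => (g r n : ℝ) /
      (((r : ℝ) - 1) * 2 ^ ⌈((r : ℝ) - 2) * n / ((r : ℝ) - 1)⌉₊)) atTop (𝓝 0) := by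
  obtain ⟨q, rfl⟩ : ∃ q, r = q + 1 := ⟨r - 1, by omega⟩
  obtain ⟨C, hC, h⟩ := bound q (by omega)
  have hq' : (2 : ℝ) ≤ q := by exact_mod_cast (show 2 ≤ q by omega)
  have e1 : ((q + 1 : ℕ) : ℝ) - 1 = q := by push_cast; ring
  have e2 : ((q + 1 : ℕ) : ℝ) - 2 = q - 1 := by push_cast; ring
  rw [e1, e2]
  have main : ∀ n : ℕ, 1 ≤ n → (g (q + 1) n : ℝ) ≤
      C * (2 : ℝ) ^ (((q : ℝ) - 1) / q * n) / (n : ℝ) ^ (1 / (2 * (q : ℝ))) := by
    intro n hn
    rw [le_div_iff₀ (Real.rpow_pos_of_pos (by exact_mod_cast hn) _)]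
    exact h n hn
  refine ⟨⟨C, hC, main⟩, ?_⟩
  have t1 : Tendsto (fun n : ℕ => C / (n : ℝ) ^ (1 / (2 * (q : ℝ)))) atTop (𝓝 0) :=
    ((tendsto_rpow_atTop (by positivity)).comp tendsto_natCast_atTop_atTop).const_div_atTop C
  refine squeeze_zero' (Eventually.of_forall fun n => by positivity) ?_ t1
  filter_upwards [eventually_ge_atTop 1] with n hn
  rw [div_le_iff₀ (by positivity)]
  refine (main n hn).trans ?_
  rw [mul_div_right_comm]
  refine mul_le_mul_of_nonneg_left ?_ (by positivity)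
  have a1 : (2 : ℝ) ^ (((q : ℝ) - 1) / q * n) ≤ 2 ^ ⌈((q : ℝ) - 1) * n / q⌉₊ := by
    rw [← Real.rpow_natCast]
    refine Real.rpow_le_rpow_of_exponent_le (by norm_num) (le_trans (le_of_eq ?_) (Nat.le_ceil _))
    ring
  have a2 : (0 : ℝ) < 2 ^ ⌈((q : ℝ) - 1) * n / q⌉₊ := by positivity
  nlinarith

end Pool.Agent.Results.MP_fa373d_co.NotTight
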